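import Pool.Agent.H408Z.PR.Lower

/-!
# A stationary 1-dependent process all of whose codings have infinite expected coding radius
-/

set_option autoImplicit false

namespace Pool.Agent.Results.MP_ba6fcf_pr.AInfiniteRadius

open MeasureTheory ProbabilityTheory Pool.Agent.H408Z.PR

/-- There is a standard Borel space `S` and a shift-invariant, 1-dependent probability measure `μ`
on `S ^ ℤ` such that for every standard Borel probability space `(T, ν)` and every measurable
shift-equivariant map `φ : T ^ ℤ → S ^ ℤ` that sends the i.i.d. law `ν ^ ℤ` to `μ`, the coding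
radius has infinite expectation. -/
theorem result : ∃ (S : Type) (_ : MeasurableSpace S) (_ : StandardBorelSpace S)
    (μ : Measure (ℤ → S)), IsProbabilityMeasure μ ∧
      μ.map (fun x i => x (i + 1)) = μ ∧
      (∀ A B : Set ℤ, (∀ i ∈ A, ∀ j ∈ B, 1 < |i - j|) →
        IndepFun (fun (x : ℤ → S) (i : A) => x i) (fun (x : ℤ → S) (j : B) => x j) μ) ∧
      ∀ (T : Type) [MeasurableSpace T] [StandardBorelSpace T] (ν : Measure T)
        [IsProbabilityMeasure ν] (φ : (ℤ → T) → ℤ → S), Measurable φ →
        (∀ y, φ (fun i => y (i + 1)) = fun i => φ y (i + 1)) →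
        (Measure.infinitePi fun _ : ℤ => ν).map φ = μ →
        ∫⁻ y, radius φ y ∂(Measure.infinitePi fun _ : ℤ => ν) = ⊤ :=
  ⟨S, inferInstance, inferInstance, mu, inferInstance, mu_shift, mu_indep,
    fun _ _ _ ν _ _ h1 h2 h3 => radius_top ν h1 h2 h3⟩

end Pool.Agent.Results.MP_ba6fcf_pr.AInfiniteRadius
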